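import Mathlib

/-! Cyclic words with constant diagonal sums: erasure of antipodal letters, and words with a
prescribed total weight. -/

namespace Pool.Agent.H.MP_30c5a0_lc.A

open Finset

/-- Positions. -/
abbrev P (m : ℕ) := ZMod (2 * (m + 3))
/-- Letters. -/
abbrev X (m Λ : ℕ) := Fin (m + 3) → ZMod Λ
/-- Cyclic words. -/
abbrev Wd (m Λ : ℕ) := P m → X m Λ

instance (m : ℕ) : NeZero (2 * (m + 3)) := ⟨by omega⟩

variable {m Λ : ℕ}

/-- Half of the length. -/
def H (m : ℕ) : P m := ((m + 3 : ℕ) : P m)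

theorem castinj {s t : ℕ} (hs : s < 2 * (m + 3)) (ht : t < 2 * (m + 3)) :
    (s : P m) = (t : P m) ↔ s = t := by
  rw [ZMod.natCast_eq_natCast_iff', Nat.mod_eq_of_lt hs, Nat.mod_eq_of_lt ht]

theorem HH : H m + H m = 0 := by
  rw [H, ← Nat.cast_add, show m + 3 + (m + 3) = 2 * (m + 3) by ring, ZMod.natCast_self]

theorem H_ne : H m ≠ 0 := by
  rw [H, ← Nat.cast_zero, Ne, castinj (by omega) (by omega)]; omega

theorem diffne {r r' : Fin (m + 3)} (h : r ≠ r') :
    ((r : ℕ) : P m) ≠ (r' : ℕ) ∧ ((r : ℕ) : P m) ≠ (r' : ℕ) + H m := by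
  have h1 := r.2
  have h2 := r'.2
  refine ⟨fun e => h (Fin.ext ((castinj (by omega) (by omega)).1 e)), fun e => ?_⟩
  rw [H, ← Nat.cast_add, castinj (by omega) (by omega)] at e
  omega

/-- Window of `m + 3` letters. -/
def arc (W : Wd m Λ) (j : P m) : Fin (m + 3) → X m Λ := fun r => W (j + (r : ℕ))
/-- Window of `m + 2` letters. -/
def win (W : Wd m Λ) (j : P m) : Fin (m + 2) → X m Λ := fun r => W (j + (r : ℕ))
/-- Diagonal sum. -/
def dg (A : Fin (m + 3) → X m Λ) : ZMod Λ := ∑ r, A r r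
/-- Diagonal sum of a window. -/
def D (W : Wd m Λ) (j : P m) : ZMod Λ := dg (arc W j)
/-- The code. -/
def InV (W : Wd m Λ) : Prop := (∀ j, D W j = D W 0) ∧ ∑ j, W j 1 = 0
/-- Rotation. -/
def sh (W : Wd m Λ) (a : P m) : Wd m Λ := fun j => W (a + j)

theorem D_eq (W : Wd m Λ) (j : P m) : D W j = ∑ r : Fin (m + 3), W (j + (r : ℕ)) r := rfl

theorem D_add (W W' : Wd m Λ) (j : P m) : D (W + W') j = D W j + D W' j := by
  simp [D_eq, sum_add_distrib]

theorem D_sh (W : Wd m Λ) (a j : P m) : D (sh W a) j = D W (a + j) := by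
  simp [D_eq, sh, add_assoc]

theorem arc_sh (W : Wd m Λ) (a j : P m) : arc (sh W a) j = arc W (a + j) := by
  funext r; simp [arc, sh, add_assoc]

theorem InV_sh {W : Wd m Λ} (h : InV W) (a : P m) : InV (sh W a) := by
  refine ⟨fun j => by rw [D_sh, D_sh, h.1, h.1 (a + 0)], ?_⟩
  rw [← h.2]
  exact Equiv.sum_comp (Equiv.addLeft a) (fun j => W j 1)

theorem erase1 {W W' : Wd m Λ} (hW : InV W) (hW' : InV W') (g : P m)
    (h : ∀ j, j ≠ g → j ≠ g + H m → W j = W' j) (r : Fin (m + 3)) :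
    W' g r - W g r = D W' 0 - D W 0 := by
  rw [← hW.1 (g - (r : ℕ)), ← hW'.1 (g - (r : ℕ)), D_eq, D_eq, ← sum_sub_distrib,
    sum_eq_single r]
  · simp
  · intro r' _ hr
    rw [h _ ?_ ?_, sub_self]
    · intro e; exact (diffne hr).1 (by linear_combination e)
    · intro e; exact (diffne hr).2 (by linear_combination e)
  · simp

theorem erase (hΛ : Odd Λ) {W W' : Wd m Λ} (hW : InV W) (hW' : InV W') (g : P m)
    (h : ∀ j, j ≠ g → j ≠ g + H m → W j = W' j) : W = W' := by
  have h1 := erase1 hW hW' g h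
  have h2 := erase1 hW hW' (g + H m) fun j hj hj' =>
    h j (by rwa [add_assoc, HH, add_zero] at hj') hj
  have hne : g ≠ g + H m := fun e => H_ne (m := m) (by linear_combination -e)
  have h3 : ∑ j, (W' j 1 - W j 1) = (W' g 1 - W g 1) + (W' (g + H m) 1 - W (g + H m) 1) :=
    sum_eq_add g (g + H m) hne (fun j _ hj => by rw [h j hj.1 hj.2, sub_self]) (by simp) (by simp)
  rw [sum_sub_distrib, hW.2, hW'.2, h1, h2, sub_self, ← two_mul] at h3
  have hu : IsUnit ((2 : ℕ) : ZMod Λ) :=
    (ZMod.isUnit_iff_coprime 2 Λ).2 (Nat.coprime_two_left.2 hΛ)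
  have h4 : D W' 0 - D W 0 = 0 := hu.mul_right_eq_zero.1 (by exact_mod_cast h3.symm)
  funext j
  by_cases e1 : j = g
  · funext r; have := h1 r; rw [h4] at this; rw [e1]; exact (sub_eq_zero.1 this).symm
  by_cases e2 : j = g + H m
  · funext r; have := h2 r; rw [h4] at this; rw [e2]; exact (sub_eq_zero.1 this).symm
  exact h j e1 e2

theorem pos_cases (j : P m) : ∃ t : ℕ, t < 2 * (m + 3) ∧ j = (t : P m) :=
  ⟨j.val, ZMod.val_lt j, (ZMod.natCast_zmod_val j).symm⟩

theorem far (hΛ : Odd Λ) {W W' : Wd m Λ} (hW : InV W) (hW' : InV W') {j j' : P m}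
    (h1 : win W j = win W' j') (h2 : win W (j + H m) = win W' (j' + H m)) :
    sh W j = sh W' j' := by
  refine erase hΛ (InV_sh hW j) (InV_sh hW' j') ((m + 2 : ℕ) : P m) fun p hp hp' => ?_
  obtain ⟨t, ht, rfl⟩ := pos_cases p
  rw [H, ← Nat.cast_add] at hp'
  rw [Ne, castinj (by omega) (by omega)] at hp hp'
  by_cases hlt : t < m + 2
  · exact congrFun h1 ⟨t, hlt⟩
  · have := congrFun h2 ⟨t - (m + 3), by omega⟩
    simp only [win, H, add_assoc, ← Nat.cast_add] at this
    rwa [show m + (3 + (t - (m + 3))) = t by omega] at this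

/-- The word carrying `a` at the positions `1, …, m + 2`. -/
def emb (a : Fin (m + 2) → X m Λ) : Wd m Λ :=
  fun j => ∑ p : Fin (m + 2), if j = (((p : ℕ) + 1 : ℕ) : P m) then a p else 0

theorem emb_at (a : Fin (m + 2) → X m Λ) (p : Fin (m + 2)) :
    emb a (((p : ℕ) + 1 : ℕ) : P m) = a p := by
  rw [emb, sum_eq_single p, if_pos rfl]
  · intro p' _ hp
    have := p.2
    have := p'.2
    rw [if_neg]
    rw [castinj (by omega) (by omega)]
    exact fun e => hp (Fin.ext (by omega))
  · simp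

theorem emb_zero (a : Fin (m + 2) → X m Λ) {t : ℕ} (ht : t < 2 * (m + 3))
    (h : t = 0 ∨ m + 3 ≤ t) : emb a (t : P m) = 0 := by
  refine sum_eq_zero fun p _ => if_neg ?_
  have := p.2
  rw [castinj (by omega) (by omega)]; omega

theorem emb_add (a b : Fin (m + 2) → X m Λ) : emb (a + b) = emb a + emb b := by
  funext j
  simp only [emb, Pi.add_apply, ← sum_add_distrib]
  refine sum_congr rfl fun p _ => ?_
  split_ifs <;> simp

theorem sum_emb (a : Fin (m + 2) → X m Λ) (r : Fin (m + 3)) :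
    ∑ j, emb a j r = ∑ p, a p r := by
  simp only [emb, Finset.sum_apply]
  rw [sum_comm]
  refine sum_congr rfl fun p _ => ?_
  simp [ite_apply]

/-- The linear form in the global equation. -/
def Phi (W : Wd m Λ) : ZMod Λ := ∑ j, W j 1 - D W (0 - 1) - D W (H m - 1)

theorem Phi_add (W W' : Wd m Λ) : Phi (W + W') = Phi W + Phi W' := by
  simp only [Phi, D_add, Pi.add_apply, sum_add_distrib]; ring

theorem Phi_sh (W : Wd m Λ) : Phi (sh W (H m)) = Phi W := by
  have h : ∑ j, sh W (H m) j 1 = ∑ j, W j 1 := Equiv.sum_comp (Equiv.addLeft (H m)) (fun j => W j 1)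
  rw [Phi, Phi, h, D_sh, D_sh, show H m + (0 - 1) = H m - 1 by ring,
    show H m + (H m - 1) = 0 - 1 by rw [← HH]; ring]
  ring

/-- Marked letters. -/
def mk (z : ℕ) (x : X m Λ) : Prop := (x 0).val < z

/-- Forget two coordinates. -/
def zero2 (a : Fin (m + 2) → X m Λ) : Fin (m + 2) → X m Λ :=
  fun p r => if r = 1 ∧ (p = 0 ∨ p = 1) then 0 else a p r

theorem one_ne : (0 : Fin (m + 3)) ≠ 1 := by simp
theorem one_ne' : (0 : Fin (m + 2)) ≠ 1 := by simp

theorem adj (z : ℕ) (a0 : Fin (m + 2) → X m Λ) (h0 : zero2 a0 = a0) (h1 : ∀ p, ¬ mk z (a0 p))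
    (u c : ZMod Λ) : ∃ a : Fin (m + 2) → X m Λ, zero2 a = a0 ∧ (∀ p, ¬ mk z (a p)) ∧
      D (emb a) 0 = u ∧ Phi (emb a) = c := by
  set s := u - D (emb a0) 0
  set t := c - Phi (emb a0) - s
  set e : Fin (m + 2) → X m Λ := fun p r =>
    if r = 1 then (if p = 0 then s else if p = 1 then t else 0) else 0 with he
  have hD : ∀ j, D (emb e) j = emb e (j + 1) 1 := by
    intro j
    rw [D_eq, sum_eq_single 1]
    · simp
    · intro r _ hr
      simp only [emb, Finset.sum_apply]
      refine sum_eq_zero fun p _ => ?_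
      split_ifs <;> simp [he, hr]
    · simp
  refine ⟨a0 + e, ?_, fun p => ?_, ?_, ?_⟩
  · funext p r
    rw [← h0]
    simp only [zero2, Pi.add_apply, he]
    split_ifs <;> simp_all
  · have := h1 p
    simpa [mk, he, one_ne] using this
  · rw [emb_add, D_add, hD]
    have := emb_at e 0
    simp only [Fin.val_zero, zero_add, Nat.cast_one] at this
    rw [zero_add, this]; simp [he, s]
  · have hP : Phi (emb e) = s + t := by
      rw [Phi, hD, hD, sum_emb, zero_sub, neg_add_cancel, sub_add_cancel, H,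
        ← Nat.cast_zero (R := P m), emb_zero e (by omega) (Or.inl rfl),
        emb_zero e (by omega) (Or.inr le_rfl), sum_eq_add 0 1 one_ne' (fun p _ hp => by
          simp [he, hp.1, hp.2]) (by simp) (by simp)]
      simp [he]
    rw [emb_add, Phi_add, hP]
    simp [t]

theorem uniq (j : P m) : ∃ r0 : Fin (m + 3), (j + (r0 : ℕ) = 0 ∨ j + (r0 : ℕ) = H m) ∧
    ∀ r, r ≠ r0 → ¬ (j + (r : ℕ) = 0 ∨ j + (r : ℕ) = H m) := by
  have key : ∃ r0 : Fin (m + 3), j + (r0 : ℕ) = 0 ∨ j + (r0 : ℕ) = H m := by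
    obtain ⟨t, ht, e⟩ := pos_cases (-j)
    by_cases h : t < m + 3
    · exact ⟨⟨t, h⟩, Or.inl (by rw [← e]; ring)⟩
    · refine ⟨⟨t - (m + 3), by omega⟩, Or.inr ?_⟩
      have e2 : (t : P m) = ((t - (m + 3) : ℕ) : P m) + H m := by
        rw [H, ← Nat.cast_add]; congr 1; omega
      have := HH (m := m)
      linear_combination -e - e2 - this
  obtain ⟨r0, h0⟩ := key
  refine ⟨r0, h0, fun r hr h => ?_⟩
  have := HH (m := m)
  rcases h0 with h0 | h0 <;> rcases h with h | h
  · exact (diffne hr).1 (by linear_combination h - h0)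
  · exact (diffne hr).2 (by linear_combination h - h0)
  · exact (diffne hr).2 (by linear_combination h - h0 - this)
  · exact (diffne hr).1 (by linear_combination h - h0)

theorem build (z : ℕ) (l : ZMod Λ) (a b : Fin (m + 2) → X m Λ) (ha : ∀ p, ¬ mk z (a p))
    (hb : ∀ p, ¬ mk z (b p)) (hab : 2 * l + Phi (emb a) + Phi (emb b) = 0)
    (hz : ¬ (l - D (emb b) 0).val < z) :
    ∃ W : Wd m Λ, InV W ∧ D W 0 = l ∧ W 0 0 = l - D (emb a) 0 ∧ (∀ j, j ≠ 0 → ¬ mk z (W j)) ∧
      Fin.tail (arc W 0) = a ∧ Fin.init (arc W (H m + 1)) = b := by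
  set W0 : Wd m Λ := emb a + sh (emb b) (H m) with hW0
  have v1 : ∀ p : Fin (m + 2), W0 (((p : ℕ) + 1 : ℕ) : P m) = a p := by
    intro p
    have := p.2
    rw [hW0, Pi.add_apply, emb_at, sh, H, ← Nat.cast_add, emb_zero b (by omega) (by omega), add_zero]
  have v2 : ∀ p : Fin (m + 2), W0 ((m + 3 + ((p : ℕ) + 1) : ℕ) : P m) = b p := by
    intro p
    have := p.2
    rw [hW0, Pi.add_apply, emb_zero a (by omega) (by omega), sh, Nat.cast_add, ← H, ← add_assoc, HH,
      zero_add, zero_add, emb_at]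
  have v3 : W0 0 = 0 := by
    rw [hW0, Pi.add_apply, sh, add_zero, H, ← Nat.cast_zero (R := P m),
      emb_zero a (by omega) (by omega), emb_zero b (by omega) (by omega), add_zero]
  have v4 : W0 (H m) = 0 := by
    rw [hW0, Pi.add_apply, sh, HH, H, ← Nat.cast_zero (R := P m),
      emb_zero a (by omega) (by omega), emb_zero b (by omega) (by omega), add_zero]
  have dz : ∀ c : Fin (m + 2) → X m Λ, D (emb c) (H m) = 0 := by
    intro c
    rw [D_eq]
    refine sum_eq_zero fun r _ => ?_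
    have := r.2
    rw [H, ← Nat.cast_add, emb_zero c (by omega) (by omega)]; rfl
  set fill : Wd m Λ := fun j r => if j = 0 ∨ j = H m then l - D W0 (j - (r : ℕ)) else 0 with hfill
  have hD : ∀ j, D (W0 + fill) j = l := by
    intro j
    obtain ⟨r0, h0, h1⟩ := uniq j
    rw [D_add, D_eq fill, sum_eq_single r0]
    · simp [hfill, h0]
    · intro r _ hr; simp only [hfill]; rw [if_neg (h1 r hr)]
    · simp
  have f1 : ∀ p : Fin (m + 2), fill (((p : ℕ) + 1 : ℕ) : P m) = 0 := by
    intro p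
    have := p.2
    funext r
    simp only [hfill]
    rw [if_neg, Pi.zero_apply]
    rw [H, ← Nat.cast_zero (R := P m), castinj (by omega) (by omega), castinj (by omega) (by omega)]
    omega
  have f2 : ∀ p : Fin (m + 2), fill ((m + 3 + ((p : ℕ) + 1) : ℕ) : P m) = 0 := by
    intro p
    have := p.2
    funext r
    simp only [hfill]
    rw [if_neg, Pi.zero_apply]
    rw [H, ← Nat.cast_zero (R := P m), castinj (by omega) (by omega), castinj (by omega) (by omega)]
    omega
  refine ⟨W0 + fill, ⟨fun j => by rw [hD, hD], ?_⟩, hD 0, ?_, fun j hj => ?_, ?_, ?_⟩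
  · simp only [Pi.add_apply, sum_add_distrib]
    rw [sum_eq_add (f := fun j => fill j 1) 0 (H m) H_ne.symm
      (fun j _ hj => by simp [hfill, hj.1, hj.2]) (by simp) (by simp)]
    have : Phi W0 = Phi (emb a) + Phi (emb b) := by rw [hW0, Phi_add, Phi_sh]
    rw [Phi] at this
    simp only [hfill, true_or, or_true, if_true, Fin.val_one, Nat.cast_one]
    linear_combination hab + this
  · simp only [Pi.add_apply, v3, hfill, true_or, if_true, Pi.zero_apply, zero_add, Fin.val_zero,
      Nat.cast_zero, sub_zero]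
    rw [hW0, D_add, D_sh, add_zero, dz, add_zero]
  · obtain ⟨t, ht, rfl⟩ := pos_cases j
    rw [← Nat.cast_zero (R := P m), Ne, castinj (by omega) (by omega)] at hj
    rcases lt_trichotomy t (m + 3) with h | h | h
    · have e : t = ((⟨t - 1, by omega⟩ : Fin (m + 2)) : ℕ) + 1 := by simp; omega
      rw [e, Pi.add_apply, v1, f1, add_zero]; exact ha _
    · rw [h, ← H, mk]
      simp only [Pi.add_apply, v4, hfill, or_true, if_true, Pi.zero_apply, zero_add, Fin.val_zero,
        Nat.cast_zero, sub_zero]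
      rwa [hW0, D_add, D_sh, HH, dz, zero_add]
    · have e : t = m + 3 + (((⟨t - (m + 4), by omega⟩ : Fin (m + 2)) : ℕ) + 1) := by simp; omega
      rw [e, Pi.add_apply, v2, f2, add_zero]; exact hb _
  · funext p
    simp only [Fin.tail, arc, Fin.val_succ, zero_add]
    rw [Pi.add_apply, v1, f1, add_zero]
  · funext p
    simp only [Fin.init, arc, Fin.val_castSucc]
    rw [show H m + 1 + ((p : ℕ) : P m) = ((m + 3 + ((p : ℕ) + 1) : ℕ) : P m) by
      rw [H]; push_cast; ring, Pi.add_apply, v2, f2, add_zero]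

theorem idx {α : Type} (S : Finset α) : ∃ f : α → ℕ, ∀ t < S.card, ∃ x ∈ S, f x = t := by
  classical
  refine ⟨fun x => if h : x ∈ S then (S.equivFin ⟨x, h⟩ : ℕ) else 0, fun t ht => ?_⟩
  refine ⟨(S.equivFin.symm ⟨t, ht⟩).1, (S.equivFin.symm ⟨t, ht⟩).2, ?_⟩
  simp

theorem card_lt (z : ℕ) [NeZero Λ] (hz : z ≤ Λ) :
    (univ.filter fun x : ZMod Λ => x.val < z).card = z := by
  rw [← card_image_of_injOn (f := ZMod.val) (fun x _ y _ h => ZMod.val_injective Λ h)]
  conv_rhs => rw [← card_range z]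
  congr 1
  ext t
  simp only [mem_image, mem_filter, mem_univ, true_and, mem_range]
  exact ⟨fun ⟨x, h, e⟩ => e ▸ h, fun h => ⟨t, by rwa [ZMod.val_natCast_of_lt (by omega)],
    ZMod.val_natCast_of_lt (by omega)⟩⟩

theorem exist (z : ℕ) [NeZero Λ] (hz : z ≤ Λ) :
    ∃ (E : ℕ) (om : (Fin (m + 3) → X m Λ) → ℕ), ((Λ - z) * Λ ^ (m + 2)) ^ (m + 2) ≤ E * Λ ^ 2 ∧
      ∀ (l : ZMod Λ) (w : ℕ), w < (z * Λ * E) * ((Λ - z) * E) →
        ∃ W : Wd m Λ, InV W ∧ D W 0 = l ∧ ∑ j, om (arc W j) = w := by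
  classical
  set Z := univ.filter fun x : ZMod Λ => x.val < z with hZ
  set U0 := univ.filter fun a : Fin (m + 2) → X m Λ => zero2 a = a ∧ ∀ p, ¬ mk z (a p) with hU0
  have cZ : Z.card = z := card_lt z hz
  have cZ' : Zᶜ.card = Λ - z := by rw [card_compl, cZ, ZMod.card]
  obtain ⟨f1, hf1⟩ := idx (Z ×ˢ (univ : Finset (ZMod Λ)) ×ˢ U0)
  obtain ⟨f2, hf2⟩ := idx (Zᶜ ×ˢ U0)
  rw [card_product, card_product, cZ, card_univ, ZMod.card, ← mul_assoc] at hf1
  rw [card_product, cZ'] at hf2
  refine ⟨U0.card, fun A => (if mk z (A 0) then ((Λ - z) * U0.card) *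
      f1 (A 0 0, Phi (emb (Fin.tail A)), zero2 (Fin.tail A)) else 0) +
    (if mk z (A (Fin.last _)) then f2 (dg A - D (emb (Fin.init A)) 0, zero2 (Fin.init A)) else 0),
    ?_, fun l w hw => ?_⟩
  · set T : Finset (X m Λ) := Fintype.piFinset fun r => if r = 0 then Zᶜ else univ with hT
    have cT : T.card = (Λ - z) * Λ ^ (m + 2) := by
      rw [hT, Fintype.card_piFinset, Fin.prod_univ_succ]
      simp [cZ']
    have h1 : (Fintype.piFinset fun _ : Fin (m + 2) => T).card ≤
        (U0 ×ˢ (univ : Finset (ZMod Λ × ZMod Λ))).card := by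
      refine card_le_card_of_injOn (fun a => (zero2 a, a 0 1, a 1 1)) ?_ ?_
      · intro a ha
        simp only [coe_product, Set.mem_prod, mem_coe, mem_univ, and_true, hU0, mem_filter,
          true_and]
        refine ⟨by funext p r; simp only [zero2]; split_ifs <;> rfl, fun p => ?_⟩
        have := Fintype.mem_piFinset.1 (Fintype.mem_piFinset.1 (mem_coe.1 ha) p) 0
        simpa [mk, zero2, one_ne, hZ] using this
      · intro a _ b _ e
        simp only [Prod.mk.injEq] at e
        funext p r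
        have := congrFun (congrFun e.1 p) r
        simp only [zero2] at this
        split_ifs at this with h
        · obtain ⟨rfl, rfl | rfl⟩ := h
          · exact e.2.1
          · exact e.2.2
        · exact this
    rw [Fintype.card_piFinset, card_product, card_univ, Fintype.card_prod, ZMod.card] at h1
    simpa [cT, sq] using h1
  · set E2 := (Λ - z) * U0.card with hE2
    have hpos : 0 < E2 := Nat.pos_of_ne_zero fun e => by rw [e] at hw; simp at hw
    obtain ⟨⟨y, c, a0⟩, hx, e1⟩ := hf1 (w / E2) ((Nat.div_lt_iff_lt_mul hpos).2 hw)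
    obtain ⟨⟨y', b0⟩, hx', e2⟩ := hf2 (w % E2) (Nat.mod_lt _ hpos)
    simp only [mem_product, hZ, hU0, mem_filter, mem_univ, true_and, mem_compl] at hx hx'
    obtain ⟨a, a1, a2, a3, a4⟩ := adj z a0 hx.2.1 hx.2.2 (l - y) c
    obtain ⟨b, b1, b2, b3, b4⟩ := adj z b0 hx'.2.1 hx'.2.2 (l - y') (-(2 * l) - c)
    obtain ⟨W, hW, w1, w2, w3, w4, w5⟩ := build z l a b a2 b2 (by rw [a4, b4]; ring)
      (by rw [b3, sub_sub_cancel]; exact hx'.1)
    rw [a3, sub_sub_cancel] at w2
    have hm : mk z (W 0) := by rw [mk, w2]; exact hx.1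
    have hl : ∀ j : P m, j + ((m + 2 : ℕ) : P m) = 0 ↔ j = H m + 1 := by
      intro j
      have := HH (m := m)
      rw [H] at this ⊢
      push_cast at this ⊢
      exact ⟨fun h => by linear_combination h - this, fun h => by linear_combination h + this⟩
    refine ⟨W, hW, w1, ?_⟩
    rw [sum_add_distrib, sum_eq_single 0, sum_eq_single (H m + 1)]
    · have t1 : arc W 0 0 = W 0 := by simp [arc]
      have t2 : arc W (H m + 1) (Fin.last _) = W 0 := by
        simp only [arc, Fin.val_last]; rw [(hl _).2 rfl]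
      have t3 : dg (arc W (H m + 1)) = l := by rw [← w1, ← hW.1 (H m + 1)]; rfl
      rw [t1, t2, if_pos hm, if_pos hm, w4, w5, t3, w2, a4, a1, b3, b1, sub_sub_cancel, e1, e2]
      exact Nat.div_add_mod w E2
    · intro j _ hj
      exact if_neg (w3 _ fun e => hj ((hl j).1 e))
    · simp
    · intro j _ hj
      exact if_neg (w3 _ (by simpa using hj))
    · simp

theorem rep (hΛ : Odd Λ) [NeZero Λ] (S : Finset (Wd m Λ)) (a b : P m) (hab : a ≠ b)
    (hS : ∀ W ∈ S, InV W ∧ W a = W b) : S.card ≤ (Λ ^ (m + 3)) ^ (2 * m + 3) := by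
  classical
  obtain ⟨g, -, hg⟩ : ∃ g ∈ (univ : Finset (P m)), g ∉ ({a, b, a + H m, b + H m} : Finset (P m)) := by
    refine exists_mem_notMem_of_card_lt_card (lt_of_le_of_lt card_le_four ?_)
    rw [card_univ, ZMod.card]; omega
  simp only [mem_insert, mem_singleton, not_or] at hg
  have hH := HH (m := m)
  have g1 : g + H m ≠ a := fun e => hg.2.2.1 (by linear_combination e - hH)
  have g2 : g + H m ≠ b := fun e => hg.2.2.2 (by linear_combination e - hH)
  have g3 : g ≠ g + H m := fun e => H_ne (m := m) (by linear_combination -e)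
  set B : Finset (P m) := {g, g + H m, b} with hB
  have cB : B.card = 3 := card_eq_three.2 ⟨_, _, _, g3, hg.2.1, g2, rfl⟩
  have h1 : S.card ≤ (Fintype.piFinset fun j : P m =>
      if j ∈ Bᶜ then (univ : Finset (X m Λ)) else {0}).card := by
    refine card_le_card_of_injOn (fun W j => if j ∈ Bᶜ then W j else 0) ?_ ?_
    · intro W _
      simp only [mem_coe, Fintype.mem_piFinset]
      intro j; split_ifs <;> simp
    · intro W hW W' hW' e
      have e1 : ∀ j, j ∉ B → W j = W' j := fun j hj => by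
        simpa [hj] using congrFun e j
      refine erase hΛ (hS W hW).1 (hS W' hW').1 g fun j h1 h2 => ?_
      by_cases hj : j = b
      · rw [hj, ← (hS W hW).2, ← (hS W' hW').2]
        refine e1 a ?_
        simp only [hB, mem_insert, mem_singleton, not_or]
        exact ⟨fun e => hg.1 e.symm, g1.symm, hab⟩
      · exact e1 j (by simp [hB, h1, h2, hj])
  rw [Fintype.card_piFinset] at h1
  simp only [apply_ite card, card_univ, card_singleton, Fintype.card_fun, ZMod.card,
    Fintype.card_fin] at h1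
  rw [prod_ite_mem, univ_inter, prod_const, card_compl, cB, ZMod.card] at h1
  rwa [show 2 * m + 3 = 2 * (m + 3) - 3 by omega]

end Pool.Agent.H.MP_30c5a0_lc.A
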