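import Mathlib

/-! Assembling a distance labeling from segments, zones and leftover cycles. -/

namespace Pool.Agent.H.MP_30c5a0_lc.B

open Finset

/-- Distance on the cycle of length `i`. -/
def cd (i u v : ℕ) : ℤ := min |(u : ℤ) - v| (i - |(u : ℤ) - v|)

theorem cd_symm (i u v : ℕ) : cd i u v = cd i v u := by rw [cd, cd, abs_sub_comm]

theorem cd_line {i u v x y : ℕ} (h : (u : ℤ) - v = x - y) (hx : 2 * x ≤ i) (hy : 2 * y ≤ i) :
    cd i u v = |(x : ℤ) - y| := by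
  rw [cd, h]
  rcases abs_cases ((x : ℤ) - y) with h | h <;> omega

/-- Block boundaries. -/
def Th (w : ℕ → ℕ) (t : ℕ) : ℕ := ∑ s ∈ range t, w s

theorem blk (w : ℕ → ℕ) (N v : ℕ) (hv : v < Th w N) : ∃ j < N, Th w j ≤ v ∧ v < Th w j + w j := by
  induction N with
  | zero => simp [Th] at hv
  | succ N ih =>
    by_cases h : v < Th w N
    · obtain ⟨j, h1, h2⟩ := ih h
      exact ⟨j, by omega, h2⟩
    · exact ⟨N, by omega, by omega, by rwa [Th, sum_range_succ] at hv⟩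

theorem Th_le (w : ℕ → ℕ) {N j : ℕ} (hj : j < N) : Th w j + w j ≤ Th w N := by
  rw [Th, ← sum_range_succ]
  exact sum_le_sum_of_subset (range_subset_range.2 hj)

theorem geo (w : ℕ → ℕ) (N l j1 j2 r x1 x2 : ℕ) (hper : ∀ s, w (N + s) = w s) (h2 : j2 < N)
    (hr : j1 + r = j2 ∨ j1 + r = N + j2) (hx1 : x1 < l) (hx2 : x2 < l) (h1 : j1 < N)
    (hl : l ≤ w j1) (hF : 2 * (∑ t ∈ range r, w (j1 + t) + l) ≤ Th w N) :
    cd (Th w N) (Th w j2 + x2) (Th w j1 + x1) =
      |((∑ t ∈ range r, w (j1 + t) : ℕ) : ℤ) + x2 - x1| := by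
  have e1 : Th w (j1 + r) = Th w j1 + ∑ t ∈ range r, w (j1 + t) := sum_range_add _ _ _
  have e2 : Th w (N + j2) = Th w N + Th w j2 := by
    rw [Th, sum_range_add]; simp only [hper]; rfl
  have e3 := Th_le w h1
  rw [cd]
  generalize ∑ t ∈ range r, w (j1 + t) = F at *
  rcases hr with hr | hr
  · rw [hr] at e1
    rcases abs_cases (((Th w j2 + x2 : ℕ) : ℤ) - (Th w j1 + x1 : ℕ)) with h | h <;>
      rcases abs_cases ((F : ℤ) + x2 - x1) with h' | h' <;> omega
  · rw [hr, e2] at e1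
    rcases abs_cases (((Th w j2 + x2 : ℕ) : ℤ) - (Th w j1 + x1 : ℕ)) with h | h <;>
      rcases abs_cases ((F : ℤ) + x2 - x1) with h' | h' <;> omega

theorem greedy (p N Dg : ℕ) [NeZero p] (conf : ℕ → ℕ → Prop) [DecidableRel conf]
    (hs : ∀ i i', conf i i' → conf i' i) (S : Finset ℕ)
    (hdeg : ∀ i ∈ S, (S.filter (conf i)).card ≤ Dg) (hp : S.card + Dg * (N * p) < p * p) :
    ∃ h : ℕ → ZMod p × ZMod p, ∀ i ∈ S, ∀ i' ∈ S, i ≠ i' → h i ≠ h i' ∧ (conf i i' →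
      ∀ j < N, (h i).1 + (j : ZMod p) * (h i).2 ≠ (h i').1 + (j : ZMod p) * (h i').2) := by
  classical
  refine Finset.induction_on' (motive := fun T => ∃ h : ℕ → ZMod p × ZMod p, ∀ i ∈ T, ∀ i' ∈ T,
    i ≠ i' → h i ≠ h i' ∧ (conf i i' → ∀ j < N,
      (h i).1 + (j : ZMod p) * (h i).2 ≠ (h i').1 + (j : ZMod p) * (h i').2)) S
    ⟨fun _ => 0, by simp⟩ ?_
  rintro a T ha hT haT ⟨h, ih⟩
  set Bad := T.image h ∪ (T.filter (conf a)).biUnion fun i' => (range N).biUnion fun j =>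
    (univ : Finset (ZMod p)).image fun t =>
      ((h i').1 + (j : ZMod p) * (h i').2 - (j : ZMod p) * t, t) with hBad
  have hc : Bad.card < (univ : Finset (ZMod p × ZMod p)).card := by
    rw [card_univ, Fintype.card_prod, ZMod.card]
    refine lt_of_le_of_lt ((card_union_le _ _).trans (Nat.add_le_add
      (card_image_le.trans (card_le_card hT)) ?_)) hp
    refine (card_biUnion_le_card_mul _ _ (N * p) fun i' _ => ?_).trans
      (Nat.mul_le_mul_right _ ((card_le_card (filter_subset_filter _ hT)).trans (hdeg a ha)))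
    refine (card_biUnion_le_card_mul _ _ p fun j _ => ?_).trans (by rw [card_range])
    exact card_image_le.trans (by rw [card_univ, ZMod.card])
  obtain ⟨x, -, hx⟩ := exists_mem_notMem_of_card_lt_card hc
  have k1 : ∀ i' ∈ T, x ≠ h i' ∧ (conf a i' → ∀ j < N,
      x.1 + (j : ZMod p) * x.2 ≠ (h i').1 + (j : ZMod p) * (h i').2) := by
    intro i' hi'
    refine ⟨fun e => hx (mem_union_left _ (mem_image.2 ⟨i', hi', e.symm⟩)), fun hcf j hj e => hx ?_⟩
    refine mem_union_right _ (mem_biUnion.2 ⟨i', mem_filter.2 ⟨hi', hcf⟩,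
      mem_biUnion.2 ⟨j, mem_range.2 hj, mem_image.2 ⟨x.2, mem_univ _, ?_⟩⟩⟩)
    rw [← e]; simp
  refine ⟨Function.update h a x, fun i hi i' hi' hne => ?_⟩
  have up : ∀ i ∈ T, Function.update h a x i = h i := fun i hi =>
    Function.update_of_ne (fun e : i = a => haT (e ▸ hi)) _ _
  rcases mem_insert.1 hi with e | hi <;> rcases mem_insert.1 hi' with e' | hi'
  · exact absurd (e.trans e'.symm) hne
  · rw [e, Function.update_self, up i' hi']; exact k1 i' hi'
  · rw [e', Function.update_self, up i hi]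
    exact ⟨(k1 i hi).1.symm, fun hcf j hj => ((k1 i hi).2 (hs _ _ hcf) j hj).symm⟩
  · rw [up i hi, up i' hi']; exact ih i hi i' hi' hne

/-- Sizes of label sets of distance labelings. -/
def Ok (n c : ℕ) : Prop := ∃ (L : Type) (φ : ℕ → ℕ → L) (T : Finset L), T.card ≤ c ∧
  (∀ i ≤ n, ∀ u < i, φ i u ∈ T) ∧ ∀ i ≤ n, ∀ i' ≤ n, ∀ u < i, ∀ v < i, ∀ u' < i', ∀ v' < i',
    φ i u = φ i' u' → φ i v = φ i' v' → cd i u v = cd i' u' v'

theorem assemble (n N ζ Dg p M : ℕ) (Sg : Type) [Fintype Sg] [DecidableEq Sg] [Fact p.Prime]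
    (good : ℕ → Prop) [DecidablePred good] (w : ℕ → ℕ → ℕ) (l : ℕ → ℕ) (σ : ℕ → ℕ → Sg)
    (hN : 0 < N) (hM : 0 < M)
    (h1 : ∀ i, good i → Th (w i) N = i)
    (h2 : ∀ i, good i → ∀ j, l i ≤ w i j ∧ w i j ≤ l i + ζ)
    (h3 : ∀ i, good i → 2 * ζ ≤ i)
    (h4 : ∀ i, good i → ∀ j < N, ∀ j' < N, σ i j = σ i j' → j = j')
    (h5 : ∀ i i', good i → good i' → i ≠ i' → ∀ j1 < N, ∀ j2 < N, ∀ j1' < N, ∀ j2' < N,
      σ i j1 = σ i' j1' → σ i j2 = σ i' j2' → ∀ x1 x2, x1 < l i → x1 < l i' → x2 < l i →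
      x2 < l i' → cd i (Th (w i) j1 + x1) (Th (w i) j2 + x2) =
        cd i' (Th (w i') j1' + x1) (Th (w i') j2' + x2))
    (h6 : ∀ s, ((range (n + 1)).filter fun i => good i ∧ ∃ j < N, σ i j = s).card ≤ Dg)
    (h7 : ((range (n + 1)).filter fun i => ¬ good i).card ≤ M * M)
    (hp1 : N ≤ p) (hp2 : n + 1 + N * Dg * (N * p) < p * p) :
    Ok n (Fintype.card Sg * (n / N + 1) + N * (p * ζ) + 2 * (M * (n + 1))) := by
  classical
  set G := (range (n + 1)).filter good with hG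
  obtain ⟨h, hh⟩ := greedy p N (N * Dg) (fun i i' => ∃ j < N, ∃ j' < N, σ i j = σ i' j')
    (fun i i' ⟨j, a, j', b, e⟩ => ⟨j', b, j, a, e.symm⟩) G (fun i _ => by
      refine (card_le_card (t := (range N).biUnion fun j => (range (n + 1)).filter fun i' =>
        good i' ∧ ∃ j' < N, σ i' j' = σ i j) ?_).trans
        ((card_biUnion_le_card_mul _ _ Dg fun j _ => h6 _).trans (by rw [card_range]))
      intro i' hi'
      obtain ⟨a, j, b, j', c, e⟩ := mem_filter.1 hi'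
      exact mem_biUnion.2 ⟨j, mem_range.2 b, mem_filter.2 ⟨(mem_filter.1 a).1, (mem_filter.1 a).2,
        j', c, e.symm⟩⟩)
    (lt_of_le_of_lt (Nat.add_le_add_right ((card_filter_le _ _).trans (by rw [card_range])) _) hp2)
  set Lo := (range (n + 1)).filter fun i => ¬ good i with hLo
  obtain ⟨t, ht1, ht2⟩ : ∃ t : ℕ → ℕ, (∀ i ∈ Lo, t i < M * M) ∧
      ∀ i ∈ Lo, ∀ i' ∈ Lo, t i = t i' → i = i' := by
    refine ⟨fun i => if hi : i ∈ Lo then (Lo.equivFin ⟨i, hi⟩ : ℕ) else 0, fun i hi => ?_,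
      fun i hi i' hi' e => ?_⟩
    · simp only [dif_pos hi]; exact lt_of_lt_of_le (Fin.is_lt _) h7
    · simp only [dif_pos hi, dif_pos hi'] at e
      exact congrArg Subtype.val (Lo.equivFin.injective (Fin.ext e))
  let Desc : ℕ → ℕ → (Sg × ℕ) ⊕ (ℕ × ZMod p × ℕ) ⊕ (Bool × ℕ × ℕ) → Prop := fun i v a =>
    match a with
    | Sum.inl (s, x) => good i ∧ ∃ j < N, x < l i ∧ v = Th (w i) j + x ∧ s = σ i j
    | Sum.inr (Sum.inl (j, c, x)) => good i ∧ j < N ∧ x < ζ ∧ v = Th (w i) j + l i + x ∧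
        c = (h i).1 + (j : ZMod p) * (h i).2
    | Sum.inr (Sum.inr (b, c, x)) => ¬ good i ∧ 2 * x ≤ i ∧
        ((b = false ∧ c = t i / M ∧ v = x) ∨ (b = true ∧ c = t i % M ∧ v = i / 2 + x))
  have ex : ∀ i v, ∃ a, v < i → Desc i v a := by
    intro i v
    by_cases hv : v < i
    swap
    · exact ⟨Sum.inr (Sum.inr (false, 0, 0)), fun h => absurd h hv⟩
    by_cases hg : good i
    · obtain ⟨j, a1, a2, a3⟩ := blk (w i) N v (by rwa [h1 i hg])
      by_cases hx : v - Th (w i) j < l i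
      · exact ⟨Sum.inl (σ i j, v - Th (w i) j), fun _ => ⟨hg, j, a1, hx, by omega, rfl⟩⟩
      · have := h2 i hg j
        exact ⟨Sum.inr (Sum.inl (j, _, v - Th (w i) j - l i)),
          fun _ => ⟨hg, a1, by omega, by omega, rfl⟩⟩
    · by_cases hx : v < i / 2
      · exact ⟨Sum.inr (Sum.inr (false, _, v)), fun _ => ⟨hg, by omega, Or.inl ⟨rfl, rfl, rfl⟩⟩⟩
      · exact ⟨Sum.inr (Sum.inr (true, _, v - i / 2)),
          fun _ => ⟨hg, by omega, Or.inr ⟨rfl, rfl, by omega⟩⟩⟩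
  choose φ hφ using ex
  have inj : ∀ i u u' a, Desc i u a → Desc i u' a → u = u' := by
    rintro i u u' (⟨s, x⟩ | ⟨j, c, x⟩ | ⟨b, c, x⟩) a1 a2
    · obtain ⟨hg, j, b1, -, b2, b3⟩ := a1
      obtain ⟨-, j', c1, -, c2, c3⟩ := a2
      rw [b2, c2, h4 i hg j b1 j' c1 (b3.symm.trans c3)]
    · exact a1.2.2.2.1.trans a2.2.2.2.1.symm
    · rcases a1.2.2 with ⟨b1, -, b2⟩ | ⟨b1, -, b2⟩ <;> rcases a2.2.2 with ⟨c1, -, c2⟩ | ⟨c1, -, c2⟩
      · omega
      · simp [b1] at c1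
      · simp [b1] at c1
      · omega
  refine ⟨_, φ, ((univ ×ˢ range (n / N + 1)).disjSum
    ((range N ×ˢ univ ×ˢ range ζ).disjSum (univ ×ˢ range M ×ˢ range (n + 1)))), ?_, ?_, ?_⟩
  · simp [card_disjSum, ZMod.card, add_assoc]
  · intro i hi u hu
    have := hφ i u hu
    generalize φ i u = a at this
    rcases a with ⟨s, x⟩ | ⟨j, c, x⟩ | ⟨b, c, x⟩
    · obtain ⟨hg, j, -, b1, -⟩ := this
      have a1 : N * l i ≤ i := by
        conv_rhs => rw [← h1 i hg]
        simpa [Th] using card_nsmul_le_sum (range N) (w i) (l i) fun j _ => (h2 i hg j).1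
      have a2 : l i ≤ n / N := (Nat.le_div_iff_mul_le hN).2 (by rw [mul_comm]; omega)
      simp; omega
    · simp [this.2.1, this.2.2.1]
    · have a1 := ht1 i (mem_filter.2 ⟨mem_range.2 (by omega), this.1⟩)
      have a2 := this.2.1
      have a3 : c < M := by
        rcases this.2.2 with ⟨-, b1, -⟩ | ⟨-, b1, -⟩
        · rw [b1]; exact (Nat.div_lt_iff_lt_mul hM).2 a1
        · rw [b1]; exact Nat.mod_lt _ hM
      simp; omega
  · intro i hi i' hi' u hu v hv u' hu' v' hv' e1 e2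
    have d1 := hφ i u hu
    have d2 := hφ i v hv
    have d1' := hφ i' u' hu'
    have d2' := hφ i' v' hv'
    rw [← e1] at d1'
    rw [← e2] at d2'
    by_cases hii : i = i'
    · subst hii
      rw [inj i u u' _ d1 d1', inj i v v' _ d2 d2']
    generalize φ i u = a at d1 d1'
    generalize φ i v = b at d2 d2'
    have mG : ∀ {i}, i ≤ n → good i → i ∈ G := fun a b => mem_filter.2 ⟨mem_range.2 (by omega), b⟩
    have mL : ∀ {i}, i ≤ n → ¬ good i → i ∈ Lo :=
      fun a b => mem_filter.2 ⟨mem_range.2 (by omega), b⟩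
    rcases a with ⟨s, x⟩ | ⟨j, c, x⟩ | ⟨b1, c, x⟩ <;> rcases b with ⟨s2, y⟩ | ⟨j2, c2, y⟩ | ⟨b2, c2, y⟩
    · obtain ⟨hg, j1, a1, a2, rfl, a3⟩ := d1
      obtain ⟨hg', j1', b1, b2, rfl, b3⟩ := d1'
      obtain ⟨-, j2, c1, c2, rfl, c3⟩ := d2
      obtain ⟨-, j2', f1, f2, rfl, f3⟩ := d2'
      exact h5 i i' hg hg' hii j1 a1 j2 c1 j1' b1 j2' f1 (a3.symm.trans b3) (c3.symm.trans f3)
        x y a2 b2 c2 f2
    · obtain ⟨hg, j1, a1, -, -, a3⟩ := d1
      obtain ⟨hg', j1', b1, -, -, b3⟩ := d1'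
      exact absurd (d2.2.2.2.2.symm.trans d2'.2.2.2.2) ((hh i (mG hi hg) i' (mG hi' hg') hii).2
        ⟨j1, a1, j1', b1, a3.symm.trans b3⟩ j2 d2.2.1)
    · exact absurd d1.1 d2.1
    · obtain ⟨hg, j1, a1, -, -, a3⟩ := d2
      obtain ⟨hg', j1', b1, -, -, b3⟩ := d2'
      exact absurd (d1.2.2.2.2.symm.trans d1'.2.2.2.2) ((hh i (mG hi hg) i' (mG hi' hg') hii).2
        ⟨j1, a1, j1', b1, a3.symm.trans b3⟩ j d1.2.1)
    · obtain ⟨hg, a1, a2, a3, a4⟩ := d1
      obtain ⟨hg', -, -, b3, b4⟩ := d1'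
      obtain ⟨-, c1, c2', c3, c4⟩ := d2
      obtain ⟨-, -, -, f3, f4⟩ := d2'
      have := h3 i hg
      have := h3 i' hg'
      by_cases hj : j = j2
      · subst hj
        rw [cd_line (x := x) (y := y) (by omega) (by omega) (by omega),
          cd_line (x := x) (y := y) (by omega) (by omega) (by omega)]
      · refine absurd ?_ (hh i (mG hi hg) i' (mG hi' hg') hii).1
        have hne : (j : ZMod p) - j2 ≠ 0 := by
          rw [sub_ne_zero, Ne, ZMod.natCast_eq_natCast_iff', Nat.mod_eq_of_lt (by omega),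
            Nat.mod_eq_of_lt (by omega)]
          exact hj
        have q2 : (h i).2 = (h i').2 :=
          mul_left_cancel₀ hne (by linear_combination b4 - a4 - f4 + c4)
        exact Prod.ext (by linear_combination b4 - a4 - (j : ZMod p) * q2) q2
    · exact absurd d1.1 d2.1
    · exact absurd d2.1 d1.1
    · exact absurd d2.1 d1.1
    · have ne : ¬ (t i / M = t i' / M ∧ t i % M = t i' % M) := fun e =>
        hii (ht2 i (mL hi d1.1) i' (mL hi' d1'.1) (by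
          rw [← Nat.div_add_mod (t i) M, e.1, e.2, Nat.div_add_mod]))
      obtain ⟨-, a1, a2⟩ := d1
      obtain ⟨-, b1', b2'⟩ := d1'
      obtain ⟨-, c1, c2'⟩ := d2
      obtain ⟨-, f1, f2⟩ := d2'
      cases b1 <;> cases b2 <;>
        simp only [true_and, false_and, or_false, false_or, Bool.false_eq_true,
          Bool.true_eq_false] at a2 b2' c2' f2
      · rw [cd_line (x := x) (y := y) (by omega) a1 c1, cd_line (x := x) (y := y) (by omega) b1' f1]
      · exact absurd ⟨a2.1.symm.trans b2'.1, c2'.1.symm.trans f2.1⟩ ne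
      · exact absurd ⟨c2'.1.symm.trans f2.1, a2.1.symm.trans b2'.1⟩ ne
      · rw [cd_line (x := x) (y := y) (by omega) a1 c1, cd_line (x := x) (y := y) (by omega) b1' f1]

end Pool.Agent.H.MP_30c5a0_lc.B
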