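import Pool.Agent.H.MP_30c5a0_lc.A
import Pool.Agent.H.MP_30c5a0_lc.B

/-! The labeling built from cyclic words. -/

namespace Pool.Agent.H.MP_30c5a0_lc.C

open Finset Pool.Agent.H.MP_30c5a0_lc.A Pool.Agent.H.MP_30c5a0_lc.B

variable {m Λ : ℕ}

theorem sumP (f : P m → ℕ) : ∑ s ∈ range (2 * (m + 3)), f (s : P m) = ∑ j, f j :=
  sum_nbij' (fun s => (s : P m)) ZMod.val (by simp) (fun j _ => mem_range.2 (ZMod.val_lt j))
    (fun s hs => ZMod.val_natCast_of_lt (mem_range.1 hs)) (fun j _ => ZMod.natCast_zmod_val j)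
    (fun _ _ => rfl)

theorem part (f : P m → ℕ) (j : P m) (r : ℕ) (hr : r ≤ 2 * (m + 3)) :
    ∑ t ∈ range r, f (j + (t : ℕ)) ≤ ∑ j, f j := by
  rw [← Equiv.sum_comp (Equiv.addLeft j) f, ← sumP]
  exact sum_le_sum_of_subset (range_subset_range.2 hr)

theorem ov {W W' : Wd m Λ} (hi : Function.Injective W') {j1 j2 j1' j2' : P m}
    (h1 : win W j1 = win W' j1') (h2 : win W j2 = win W' j2') (h : (j2 - j1).val < m + 2) :
    j2 - j1 = j2' - j1' := by
  have a1 := congrFun h1 ⟨_, h⟩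
  have a2 := congrFun h2 0
  simp only [win, ZMod.natCast_zmod_val, add_sub_cancel, Fin.val_zero, Nat.cast_zero,
    add_zero] at a1 a2
  have := hi (a1.symm.trans a2)
  linear_combination this

theorem negval (a : P m) (h : m + 5 ≤ a.val + 0) : (-a).val < m + 2 := by
  have := ZMod.val_lt a
  rw [ZMod.neg_val]; split_ifs <;> omega

theorem negval' (a : P m) (h : m + 4 ≤ a.val) : (-a).val ≤ m + 2 := by
  have := ZMod.val_lt a
  rw [ZMod.neg_val]; split_ifs <;> omega

theorem type_eq (h3 : 3 ∣ m) {W W' : Wd m Λ} (hi : Function.Injective W)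
    (hi' : Function.Injective W') {j1 j2 j1' j2' : ℕ}
    (h1 : win W j1 = win W' j1') (h2 : win W j2 = win W' j2') (p1 : (j1 : ZMod 3) = j1')
    (p2 : (j2 : ZMod 3) = j2') : (j2 : P m) - j1 = j2' - j1' := by
  by_cases c1 : ((j2 : P m) - j1).val < m + 2
  · exact ov hi' h1 h2 c1
  by_cases c2 : ((j2' : P m) - j1').val < m + 2
  · exact (ov hi h1.symm h2.symm c2).symm
  by_cases c3 : m + 5 ≤ ((j2 : P m) - j1).val + 0
  · have := ov hi' h2 h1 (by simpa using negval _ c3)
    linear_combination -this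
  by_cases c4 : m + 5 ≤ ((j2' : P m) - j1').val + 0
  · have := ov hi h2.symm h1.symm (by simpa using negval _ c4)
    linear_combination this
  have hd : 3 ∣ 2 * (m + 3) := by omega
  have key : ∀ a b : ℕ, ((((a : P m) - b).val : ℕ) : ZMod 3) = a - b := by
    intro a b
    have := map_natCast (ZMod.castHom hd (ZMod 3)) ((a : P m) - b).val
    rw [ZMod.natCast_zmod_val, map_sub, map_natCast, map_natCast] at this
    exact this.symm
  have e : ((((j2 : P m) - j1).val : ℕ) : ZMod 3) = (((j2' : P m) - j1').val : ℕ) := by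
    rw [key, key, p1, p2]
  rw [ZMod.natCast_eq_natCast_iff'] at e
  exact ZMod.val_injective _ (by omega)

theorem wrap {j1 j2 : ℕ} (h1 : j1 < 2 * (m + 3)) (h2 : j2 < 2 * (m + 3)) :
    j1 + ((j2 : P m) - j1).val = j2 ∨ j1 + ((j2 : P m) - j1).val = 2 * (m + 3) + j2 := by
  have a := ZMod.val_lt ((j2 : P m) - (j1 : P m))
  have e : ((j1 + ((j2 : P m) - j1).val : ℕ) : P m) = j2 := by
    rw [Nat.cast_add, ZMod.natCast_zmod_val]; ring
  by_cases h : j1 + ((j2 : P m) - j1).val < 2 * (m + 3)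
  · exact Or.inl ((castinj h h2).1 e)
  · right
    have e2 : ((j1 + ((j2 : P m) - j1).val - 2 * (m + 3) : ℕ) : P m) = j2 := by
      rw [Nat.cast_sub (by omega), e, ZMod.natCast_self, sub_zero]
    have := (castinj (by omega) h2).1 e2
    omega

theorem arcs {W W' : Wd m Λ} {j1 j2 j1' j2' : P m} (h1 : win W j1 = win W' j1')
    (h2 : win W j2 = win W' j2') (e : j2 - j1 = j2' - j1') (h : (j2 - j1).val ≤ m + 2) (t : ℕ)
    (ht : t < (j2 - j1).val) : arc W (j1 + t) = arc W' (j1' + t) := by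
  funext s
  have hs := s.2
  simp only [arc, add_assoc, ← Nat.cast_add]
  by_cases c : t + s < m + 2
  · exact congrFun h1 ⟨_, c⟩
  · have := congrFun h2 ⟨t + s - (j2 - j1).val, by omega⟩
    simp only [win] at this
    rw [Nat.cast_sub (by omega), ZMod.natCast_zmod_val] at this
    rw [show j1 + ((t + s : ℕ) : P m) = j2 + (((t + s : ℕ) : P m) - (j2 - j1)) by ring, this, e]
    congr 1; ring

theorem fin (z n Ω p M : ℕ) [Fact p.Prime] (h3 : 3 ∣ m) (hΛ : Odd Λ) (hz : z ≤ Λ)
    (hΩ : ∀ E, ((Λ - z) * Λ ^ (m + 2)) ^ (m + 2) ≤ E * Λ ^ 2 →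
      2 * (m + 3) * Ω ≤ (z * Λ * E) * ((Λ - z) * E))
    (hn : n < 2 * (m + 3) * Ω * Λ) (hM0 : 0 < M)
    (hM : (m + 3) * (2 * (m + 3) * Ω) + 2 * (m + 3) * (2 * (m + 3)) * (Λ ^ (m + 3)) ^ (2 * m + 3)
      ≤ M * M) (hp1 : 2 * (m + 3) ≤ p)
    (hp2 : n + 1 + 2 * (m + 3) * (Λ ^ (m + 3)) ^ (m + 2) * (2 * (m + 3) * p) < p * p) :
    Ok n (3 * (Λ ^ (m + 3)) ^ (m + 2) * (n / (2 * (m + 3)) + 1) +
      2 * (m + 3) * (p * (3 * (m + 3) * Ω)) + 2 * (M * (n + 1))) := by
  classical
  haveI : NeZero Λ := ⟨hΛ.pos.ne'⟩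
  obtain ⟨E, om, hE, hW⟩ := exist (m := m) z hz
  set B := 2 * (m + 3) * Ω with hB
  have hB0 : 0 < B := Nat.pos_of_ne_zero fun e => by rw [e] at hn; simp at hn
  choose W hW1 hW2 hW3 using fun i : ℕ => hW ((i / B - (m + 3) : ℕ) : ZMod Λ) (i % B)
    (lt_of_lt_of_le (Nat.mod_lt _ hB0) (hΩ E hE))
  set wt : (Fin (m + 3) → X m Λ) → ℕ := fun A => (dg A).val * Ω + ((m + 3) * Ω + om A) with hwt
  set big : ℕ → Prop := fun i => i ≤ n ∧ (m + 3) * B ≤ i with hbig
  set l : ℕ → ℕ := fun i => (i / B - (m + 3)) * Ω with hl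
  have w1 : ∀ i, big i → ∀ j, wt (arc (W i) j) = l i + ((m + 3) * Ω + om (arc (W i) j)) := by
    intro i hi j
    have a1 : i / B < Λ := (Nat.div_lt_iff_lt_mul hB0).2 (by rw [mul_comm]; exact hi.1.trans_lt hn)
    have a2 : dg (arc (W i) j) = ((i / B - (m + 3) : ℕ) : ZMod Λ) := ((hW1 i).1 j).trans (hW2 i)
    simp only [hwt, hl]
    rw [a2, ZMod.val_natCast_of_lt ((Nat.sub_le _ _).trans_lt a1)]
  have dec : ∀ i, big i → i = 2 * (m + 3) * l i + (m + 3) * B + i % B := by
    intro i hi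
    have a1 : m + 3 ≤ i / B := (Nat.le_div_iff_mul_le hB0).2 hi.2
    obtain ⟨c, hc⟩ := Nat.exists_eq_add_of_le a1
    have a2 := Nat.div_add_mod i B
    simp only [hl]
    rw [hc] at a2 ⊢
    rw [Nat.add_sub_cancel_left]
    conv_lhs => rw [← a2]
    rw [hB]; ring
  have tot : ∀ i, big i → ∑ j, wt (arc (W i) j) = i := by
    intro i hi
    simp only [w1 i hi, sum_add_distrib, hW3, sum_const, card_univ, ZMod.card, smul_eq_mul]
    conv_rhs => rw [dec i hi]
    rw [hB]; ring
  have rot : ∀ i i', big i → big i' → ∀ j j', sh (W i) j = sh (W i') j' → i = i' := by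
    intro i i' hi hi' j j' e
    have k : ∀ (V : Wd m Λ) (j : P m), ∑ x, wt (arc V x) = ∑ x, wt (arc (sh V j) x) := by
      intro V j
      rw [← Equiv.sum_comp (Equiv.addLeft j)]
      simp only [Equiv.coe_addLeft, arc_sh]
    rw [← tot i hi, ← tot i' hi', k (W i) j, k (W i') j', e]
  have h1 : ∀ i, big i → Th (fun s : ℕ => wt (arc (W i) (s : P m))) (2 * (m + 3)) = i :=
    fun i hi => (sumP fun j => wt (arc (W i) j)).trans (tot i hi)
  have omle : ∀ i j, om (arc (W i) j) ≤ B := fun i j =>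
    (single_le_sum (f := fun j => om (arc (W i) j)) (fun _ _ => Nat.zero_le _) (mem_univ j)).trans
      (by rw [hW3]; exact (Nat.mod_lt _ hB0).le)
  have geo' : ∀ i, big i → ∀ j1 < 2 * (m + 3), ∀ j2 < 2 * (m + 3), ((j2 : P m) - j1).val ≤ m + 2 →
      ∀ x1 x2, x1 < l i → x2 < l i →
      cd i (Th (fun s : ℕ => wt (arc (W i) (s : P m))) j2 + x2)
        (Th (fun s : ℕ => wt (arc (W i) (s : P m))) j1 + x1) =
      |((∑ t ∈ range ((j2 : P m) - j1).val, wt (arc (W i) (j1 + (t : ℕ))) : ℕ) : ℤ) + x2 - x1| := by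
    intro i hi j1 a1 j2 a2 hr x1 x2 b1 b2
    have := geo (fun s : ℕ => wt (arc (W i) (s : P m))) (2 * (m + 3)) (l i) j1 j2 _ x1 x2
      (fun s => by simp only [Nat.cast_add, ZMod.natCast_self, zero_add]) a2 (wrap a1 a2) b1 b2 a1
      (by simp only [w1 i hi]; omega) (by
        rw [h1 i hi]
        simp only [w1 i hi, sum_add_distrib, sum_const, card_range, smul_eq_mul, Nat.cast_add]
        have c1 := part (fun j => om (arc (W i) j)) j1 ((j2 : P m) - j1).val (by omega)
        rw [hW3] at c1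
        have c2 := dec i hi
        have c3 := Nat.mod_lt i hB0
        have c4 := Nat.mul_le_mul_right (l i) hr
        have c5 := Nat.mul_le_mul_right ((m + 3) * Ω) hr
        have c6 : (m + 3) * B = 2 * ((m + 2) * ((m + 3) * Ω)) + B := by rw [hB]; ring
        have c7 : 2 * (m + 3) * l i = 2 * ((m + 2) * l i) + 2 * l i := by ring
        omega)
    rw [h1 i hi] at this
    simpa only [Nat.cast_add] using this
  have := assemble n (2 * (m + 3)) (3 * (m + 3) * Ω) ((Λ ^ (m + 3)) ^ (m + 2)) p M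
    (ZMod 3 × (Fin (m + 2) → X m Λ)) (fun i => big i ∧ Function.Injective (W i))
    (fun i s => wt (arc (W i) (s : P m))) l (fun i j => ((j : ZMod 3), win (W i) (j : P m)))
    (by omega) hM0 (fun i hi => h1 i hi.1) (fun i hi j => by
      have := omle i j
      have c : 3 * (m + 3) * Ω = (m + 3) * Ω + B := by rw [hB]; ring
      simp only [w1 i hi.1]; omega)
    (fun i hi => by
      have := hi.1.2
      have c : (m + 3) * B = 2 * (3 * (m + 3) * Ω) + m * B := by rw [hB]; ring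
      omega)
    (fun i hi j a j' b e => by
      have := congrFun (Prod.ext_iff.1 e).2 0
      simp only [win, Fin.val_zero, Nat.cast_zero, add_zero] at this
      exact (castinj a b).1 (hi.2 this))
    (fun i i' hi hi' hne j1 a1 j2 a2 j1' a1' j2' a2' e1 e2 x1 x2 b1 b1' b2 b2' => by
      have near : ∀ j1 < 2 * (m + 3), ∀ j2 < 2 * (m + 3), ∀ j1' < 2 * (m + 3), ∀ j2' < 2 * (m + 3),
          win (W i) j1 = win (W i') j1' → win (W i) j2 = win (W i') j2' →
          (j2 : P m) - j1 = j2' - j1' → ((j2 : P m) - j1).val ≤ m + 2 →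
          ∀ x1 x2, x1 < l i → x1 < l i' → x2 < l i → x2 < l i' →
          cd i (Th (fun s : ℕ => wt (arc (W i) (s : P m))) j2 + x2)
            (Th (fun s : ℕ => wt (arc (W i) (s : P m))) j1 + x1) =
          cd i' (Th (fun s : ℕ => wt (arc (W i') (s : P m))) j2' + x2)
            (Th (fun s : ℕ => wt (arc (W i') (s : P m))) j1' + x1) := by
        intro j1 a1 j2 a2 j1' a1' j2' a2' e1 e2 e hr x1 x2 b1 b1' b2 b2'
        rw [geo' i hi.1 j1 a1 j2 a2 hr x1 x2 b1 b2,
          geo' i' hi'.1 j1' a1' j2' a2' (e ▸ hr) x1 x2 b1' b2', ← e,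
          sum_congr rfl fun t ht => by rw [arcs e1 e2 e hr t (mem_range.1 ht)]]
      obtain ⟨p1, q1⟩ := Prod.ext_iff.1 e1
      obtain ⟨p2, q2⟩ := Prod.ext_iff.1 e2
      have e := type_eq h3 hi.2 hi'.2 q1 q2 p1 p2
      rcases lt_trichotomy ((j2 : P m) - j1).val (m + 3) with c | c | c
      · rw [cd_symm i, cd_symm i']
        exact near j1 a1 j2 a2 j1' a1' j2' a2' q1 q2 e (by omega) x1 x2 b1 b1' b2 b2'
      · have c1 : (j2 : P m) = j1 + H m := by
          have := ZMod.natCast_zmod_val ((j2 : P m) - (j1 : P m))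
          rw [c] at this
          rw [H, this]; ring
        have c2 : (j2' : P m) = j1' + H m := by linear_combination c1 - e
        exact absurd (rot i i' hi.1 hi'.1 _ _ (far hΛ (hW1 i) (hW1 i') q1 (by
          rw [← c1, ← c2]; exact q2))) hne
      · exact near j2 a2 j1 a1 j2' a2' j1' a1' q2 q1 (by linear_combination -e)
          (by simpa using negval' _ c) x2 x1 b2 b2' b1 b1')
    (fun s => by
      refine (card_le_card_of_injOn (t := univ) (fun i => if h : ∃ j : P m, win (W i) j = s.2 then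
        win (W i) (h.choose + H m) else s.2) (by simp) ?_).trans (by simp)
      intro i hi i' hi' e
      obtain ⟨-, a1, j, -, a2⟩ := mem_filter.1 (mem_coe.1 hi)
      obtain ⟨-, b1, j', -, b2⟩ := mem_filter.1 (mem_coe.1 hi')
      have c1 : ∃ j : P m, win (W i) j = s.2 := ⟨j, (Prod.ext_iff.1 a2).2⟩
      have c2 : ∃ j : P m, win (W i') j = s.2 := ⟨j', (Prod.ext_iff.1 b2).2⟩
      simp only [dif_pos c1, dif_pos c2] at e
      exact rot i i' a1.1 b1.1 _ _ (far hΛ (hW1 i) (hW1 i')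
        (c1.choose_spec.trans c2.choose_spec.symm) e))
    (by
      refine le_trans (card_le_card (t := range ((m + 3) * B) ∪
        (univ : Finset (P m × P m)).biUnion fun ab => (range (n + 1)).filter fun i =>
          big i ∧ ab.1 ≠ ab.2 ∧ W i ab.1 = W i ab.2) ?_) (le_trans (card_union_le _ _)
        (le_trans (Nat.add_le_add (card_range _).le ?_) hM))
      · intro i hi
        obtain ⟨a1, a2⟩ := mem_filter.1 hi
        by_cases c : i < (m + 3) * B
        · exact mem_union_left _ (mem_range.2 c)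
        · have hb : big i := ⟨Nat.lt_succ_iff.1 (mem_range.1 a1), by omega⟩
          obtain ⟨a, b, e, ne⟩ := Function.not_injective_iff.1 fun h => a2 ⟨hb, h⟩
          exact mem_union_right _ (mem_biUnion.2 ⟨(a, b), mem_univ _, mem_filter.2 ⟨a1, hb, ne, e⟩⟩)
      · refine (card_biUnion_le_card_mul _ _ _ fun ab _ => ?_).trans
          (by rw [card_univ, Fintype.card_prod, ZMod.card])
        by_cases c : ab.1 = ab.2
        · simp [c]
        rw [← card_image_of_injOn (f := W) fun i hi i' hi' e => rot i i'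
          (mem_filter.1 (mem_coe.1 hi)).2.1 (mem_filter.1 (mem_coe.1 hi')).2.1 0 0 (by rw [e])]
        refine rep hΛ _ ab.1 ab.2 c fun V hV => ?_
        obtain ⟨i, hi, rfl⟩ := mem_image.1 hV
        exact ⟨hW1 i, (mem_filter.1 hi).2.2.2⟩)
    hp1 hp2
  simpa only [Fintype.card_prod, ZMod.card, Fintype.card_fun, Fintype.card_fin] using this

end Pool.Agent.H.MP_30c5a0_lc.C
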